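import Mathlib
import Pool.Agent.Helper799.TeCube
import Pool.Agent.Helper358.BP7

set_option autoImplicit false

namespace Pool.Agent.H739R2.CK

open Pool.Helper799.Te

variable {ι : Type*} [Fintype ι] [DecidableEq ι]

theorem m2 (a : ι → ℝ) : Av (fun ε : ι → Bool => (∑ i, sb (ε i) * a i) ^ 2) = ∑ i, a i ^ 2 := by
  unfold Av
  rw [div_eq_iff (by positivity), sum_cube_eq]
  have h := Pool.Agent.Helper799.Khin.moment2 (Finset.univ : Finset ι) a
  rw [Finset.card_univ] at h
  rw [mul_comm, ← h]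
  apply Finset.sum_congr rfl
  intro s _
  congr 1
  apply Finset.sum_congr rfl
  intro i _
  congr 1
  unfold Pool.Agent.Helper799.Khin.sg sb
  by_cases h : i ∈ s <;> simp [h]

theorem m4 (a : ι → ℝ) :
    Av (fun ε : ι → Bool => (∑ i, sb (ε i) * a i) ^ 4) ≤ 3 * (∑ i, a i ^ 2) ^ 2 := by
  unfold Av
  rw [div_le_iff₀ (by positivity), sum_cube_eq]
  have h := Pool.Agent.Helper799.Khin.moment4 (Finset.univ : Finset ι) a
  rw [Finset.card_univ] at h
  rw [mul_comm]
  refine le_trans (le_of_eq ?_) h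
  apply Finset.sum_congr rfl
  intro s _
  congr 1
  apply Finset.sum_congr rfl
  intro i _
  congr 1
  unfold Pool.Agent.Helper799.Khin.sg sb
  by_cases h : i ∈ s <;> simp [h]

theorem orth (i j : ι) : Av (fun ε : ι → Bool => sb (ε i) * sb (ε j)) = if i = j then 1 else 0 := by
  split_ifs with h
  · subst h
    have : (fun ε : ι → Bool => sb (ε i) * sb (ε i)) = fun _ => 1 := by
      funext ε; exact sb_sq _
    rw [this, Av_const]
  · have h1 := m2 (fun k : ι => (if k = i then (1 : ℝ) else 0) + (if k = j then 1 else 0))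
    have h2 : ∀ ε : ι → Bool, (∑ k, sb (ε k) * ((if k = i then (1 : ℝ) else 0) +
        (if k = j then 1 else 0))) ^ 2 = 2 + 2 * (sb (ε i) * sb (ε j)) := by
      intro ε
      have e1 : ∑ k, sb (ε k) * ((if k = i then (1 : ℝ) else 0) + (if k = j then 1 else 0)) =
          sb (ε i) + sb (ε j) := by
        simp [mul_add, Finset.sum_add_distrib]
      rw [e1]
      have := sb_sq (ε i)
      have := sb_sq (ε j)
      nlinarith
    have h3 : ∑ k, ((if k = i then (1 : ℝ) else 0) + (if k = j then 1 else 0)) ^ 2 = 2 := by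
      have e2 : ∀ k, ((if k = i then (1 : ℝ) else 0) + (if k = j then 1 else 0)) ^ 2 =
          (if k = i then (1 : ℝ) else 0) + (if k = j then 1 else 0) := by
        intro k
        by_cases hk : k = i
        · subst hk
          simp [h]
        · by_cases hk' : k = j
          · subst hk'; simp [hk]
          · simp [hk, hk']
      rw [Finset.sum_congr rfl (fun k _ => e2 k)]
      simp [Finset.sum_add_distrib]
      norm_num
    rw [h3] at h1
    simp only [h2] at h1
    rw [Av_add, Av_const, Av_mul] at h1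
    linarith

theorem bessel (h : (ι → Bool) → ℝ) :
    ∑ i, (Av (fun ε : ι → Bool => sb (ε i) * h ε)) ^ 2 ≤ Av (fun ε => h ε ^ 2) := by
  set c : ι → ℝ := fun i => Av (fun ε : ι → Bool => sb (ε i) * h ε) with hc
  have h0 : 0 ≤ Av (fun ε : ι → Bool => (h ε - ∑ i, sb (ε i) * c i) ^ 2) :=
    Av_nonneg (fun ε => sq_nonneg _)
  have h1 : ∀ ε : ι → Bool, (h ε - ∑ i, sb (ε i) * c i) ^ 2 =
      h ε ^ 2 + ((-2) * (∑ i, c i * (sb (ε i) * h ε)) + (∑ i, sb (ε i) * c i) ^ 2) := by
    intro ε
    have e1 : ∑ i, c i * (sb (ε i) * h ε) = (∑ i, sb (ε i) * c i) * h ε := by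
      rw [Finset.sum_mul]
      apply Finset.sum_congr rfl
      intro i _
      ring
    rw [e1]
    ring
  simp only [h1] at h0
  rw [Av_add, Av_add, Av_mul, m2, Av_sum] at h0
  have h2 : ∑ k, Av (fun ε : ι → Bool => c k * (sb (ε k) * h ε)) = ∑ k, c k ^ 2 := by
    apply Finset.sum_congr rfl
    intro k _
    rw [Av_mul]
    change c k * c k = _
    ring
  rw [h2] at h0
  linarith

/-- truncation -/
def tr (x : ℝ) : ℝ := max (-1) (min x 1)

theorem tr_cont : Continuous tr := by
  unfold tr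
  fun_prop

theorem abs_tr (x : ℝ) : |tr x| ≤ 1 := by
  unfold tr
  rw [abs_le]
  constructor
  · exact le_max_left _ _
  · exact max_le (by norm_num) (min_le_right _ _)

theorem abs_sub_tr (x : ℝ) : |x - tr x| ≤ x ^ 2 / 4 := by
  unfold tr
  rcases le_total x 1 with h1 | h1
  · rw [min_eq_left h1]
    rcases le_total x (-1) with h2 | h2
    · rw [max_eq_left h2, abs_of_nonpos (by linarith)]
      nlinarith [sq_nonneg (x + 2)]
    · rw [max_eq_right h2, sub_self, abs_zero]
      positivity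
  · rw [min_eq_right h1, max_eq_right (by norm_num), abs_of_nonneg (by linarith)]
    nlinarith [sq_nonneg (x - 2)]

section

variable {K : Type*} [TopologicalSpace K] [CompactSpace K]

/-- The little Grothendieck inequality, in the form of a trace estimate. -/
theorem lgt (b : C(K, ℝ) →L[ℝ] EuclideanSpace ℝ ι) (f : ι → C(K, ℝ))
    (hf : ∀ t, ∑ i, (f i t) ^ 2 ≤ 1) :
    ∑ i, (b (f i)) i ≤ 2 * (‖b‖ * Real.sqrt (Fintype.card ι)) := by
  set S : Set ℝ := {r | ∃ f : ι → C(K, ℝ), (∀ t, ∑ i, (f i t) ^ 2 ≤ 1) ∧ r = ∑ i, (b (f i)) i}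
    with hS
  have hbdd : BddAbove S := by
    refine ⟨∑ _i : ι, ‖b‖, ?_⟩
    rintro r ⟨f, hf, rfl⟩
    apply Finset.sum_le_sum
    intro i _
    have h1 : ‖f i‖ ≤ 1 := by
      rw [ContinuousMap.norm_le _ zero_le_one]
      intro t
      have h2 : (f i t) ^ 2 ≤ 1 :=
        (Finset.single_le_sum (f := fun i => (f i t) ^ 2) (fun j _ => sq_nonneg _)
          (Finset.mem_univ i)).trans (hf t)
      rw [Real.norm_eq_abs]
      exact abs_le_one_iff_mul_self_le_one.mpr (by nlinarith)
    calc (b (f i)) i ≤ ‖(b (f i)) i‖ := le_abs_self _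
      _ ≤ ‖b (f i)‖ := PiLp.norm_apply_le _ _
      _ ≤ ‖b‖ * ‖f i‖ := b.le_opNorm _
      _ ≤ ‖b‖ * 1 := by gcongr
      _ = ‖b‖ := mul_one _
  set A := sSup S with hA
  have hA0 : 0 ≤ A := le_csSup hbdd ⟨fun _ => 0, by simp, by simp⟩
  have key : ∀ f : ι → C(K, ℝ), (∀ t, ∑ i, (f i t) ^ 2 ≤ 1) →
      ∑ i, (b (f i)) i ≤ ‖b‖ * Real.sqrt (Fintype.card ι) + A / 2 := by
    intro f hf
    let g : (ι → Bool) → C(K, ℝ) := fun ε => ∑ i, sb (ε i) • f i
    have hg : ∀ ε t, g ε t = ∑ i, sb (ε i) * f i t := by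
      intro ε t
      simp [g]
    let g1 : (ι → Bool) → C(K, ℝ) := fun ε => ⟨fun t => tr (g ε t), tr_cont.comp (g ε).continuous⟩
    have hg1 : ∀ ε t, g1 ε t = tr (g ε t) := fun _ _ => rfl
    let N : ℝ := 2 ^ Fintype.card ι
    have hN : 0 < N := by positivity
    let f1 : ι → C(K, ℝ) := fun i => N⁻¹ • ∑ ε, sb (ε i) • g1 ε
    let f2 : ι → C(K, ℝ) := fun i => N⁻¹ • ∑ ε, sb (ε i) • (g ε - g1 ε)
    have hf1 : ∀ i t, f1 i t = Av (fun ε => sb (ε i) * g1 ε t) := by
      intro i t
      simp only [f1, Av, ContinuousMap.coe_smul, ContinuousMap.coe_sum, Pi.smul_apply,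
        Finset.sum_apply, smul_eq_mul]
      rw [div_eq_inv_mul]
    have hf2 : ∀ i t, f2 i t = Av (fun ε => sb (ε i) * (g ε t - g1 ε t)) := by
      intro i t
      simp only [f2, Av, ContinuousMap.coe_smul, ContinuousMap.coe_sum, Pi.smul_apply,
        Finset.sum_apply, smul_eq_mul, ContinuousMap.sub_apply]
      rw [div_eq_inv_mul]
    have hsum : ∀ i, f i = f1 i + f2 i := by
      intro i
      ext t
      rw [ContinuousMap.add_apply, hf1, hf2, ← Av_add]
      have e1 : (fun ε : ι → Bool => sb (ε i) * g1 ε t + sb (ε i) * (g ε t - g1 ε t)) =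
          fun ε => ∑ j, f j t * (sb (ε i) * sb (ε j)) := by
        funext ε
        rw [← mul_add, add_sub_cancel, hg, Finset.mul_sum]
        apply Finset.sum_congr rfl
        intro j _
        ring
      rw [e1, Av_sum]
      simp only [Av_mul, orth]
      simp
    -- the bounded part
    have hb1 : ∑ i, (b (f1 i)) i ≤ ‖b‖ * Real.sqrt (Fintype.card ι) := by
      have e1 : ∀ i, (b (f1 i)) i = Av (fun ε => sb (ε i) * (b (g1 ε)) i) := by
        intro i
        simp only [f1, map_smul, map_sum, Av]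
        simp only [PiLp.smul_apply, WithLp.ofLp_sum, Finset.sum_apply, smul_eq_mul]
        rw [div_eq_inv_mul]
      simp only [e1]
      rw [← Av_sum]
      have h2 : ∀ ε : ι → Bool, ∑ i, sb (ε i) * (b (g1 ε)) i ≤
          ‖b‖ * Real.sqrt (Fintype.card ι) := by
        intro ε
        have h3 : ∑ i, sb (ε i) * (b (g1 ε)) i ≤
            Real.sqrt (∑ i, sb (ε i) ^ 2) * Real.sqrt (∑ i, (b (g1 ε)) i ^ 2) :=
          Real.sum_mul_le_sqrt_mul_sqrt _ _ _
        have h4 : ∑ i, sb (ε i) ^ 2 = Fintype.card ι := by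
          simp [sq, sb_sq]
        have h5 : Real.sqrt (∑ i, (b (g1 ε)) i ^ 2) = ‖b (g1 ε)‖ := by
          rw [EuclideanSpace.norm_eq]
          simp
        have h6 : ‖g1 ε‖ ≤ 1 := by
          rw [ContinuousMap.norm_le _ zero_le_one]
          intro t
          rw [hg1, Real.norm_eq_abs]
          exact abs_tr _
        have h7 : ‖b (g1 ε)‖ ≤ ‖b‖ := by
          calc ‖b (g1 ε)‖ ≤ ‖b‖ * ‖g1 ε‖ := b.le_opNorm _
            _ ≤ ‖b‖ * 1 := by gcongr
            _ = ‖b‖ := mul_one _
        rw [h4, h5] at h3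
        calc _ ≤ _ := h3
          _ ≤ Real.sqrt (Fintype.card ι) * ‖b‖ := by gcongr
          _ = _ := mul_comm _ _
      calc Av (fun ε : ι → Bool => ∑ i, sb (ε i) * (b (g1 ε)) i)
          ≤ Av (fun _ : ι → Bool => ‖b‖ * Real.sqrt (Fintype.card ι)) := Av_mono h2
        _ = _ := Av_const _
    -- the small part
    have hb2 : ∑ i, (b (f2 i)) i ≤ A / 2 := by
      have h1 : ∀ t, ∑ i, ((2 : ℝ) • f2 i) t ^ 2 ≤ 1 := by
        intro t
        have h2 := bessel (fun ε : ι → Bool => g ε t - g1 ε t)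
        have h3 : Av (fun ε : ι → Bool => (g ε t - g1 ε t) ^ 2) ≤
            Av (fun ε : ι → Bool => (1 / 16) * (∑ i, sb (ε i) * f i t) ^ 4) := by
          apply Av_mono
          intro ε
          rw [hg1, ← hg]
          have h4 := abs_sub_tr (g ε t)
          have h5 : (g ε t - tr (g ε t)) ^ 2 = |g ε t - tr (g ε t)| ^ 2 := (sq_abs _).symm
          rw [h5]
          calc |g ε t - tr (g ε t)| ^ 2 ≤ ((g ε t) ^ 2 / 4) ^ 2 := by gcongr
            _ = _ := by ring
        rw [Av_mul] at h3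
        have h6 := m4 (fun i => f i t)
        have h7 : (∑ i, f i t ^ 2) ^ 2 ≤ 1 := by
          have h8 : 0 ≤ ∑ i, f i t ^ 2 := Finset.sum_nonneg (fun i _ => sq_nonneg _)
          have := hf t
          nlinarith
        have h9 : ∑ i, ((2 : ℝ) • f2 i) t ^ 2 =
            4 * ∑ i, (Av (fun ε : ι → Bool => sb (ε i) * (g ε t - g1 ε t))) ^ 2 := by
          rw [Finset.mul_sum]
          apply Finset.sum_congr rfl
          intro i _
          rw [ContinuousMap.smul_apply, hf2, smul_eq_mul]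
          ring
        rw [h9]
        nlinarith
      have h10 : ∑ i, (b ((2 : ℝ) • f2 i)) i ≤ A := le_csSup hbdd ⟨_, h1, rfl⟩
      have h11 : ∑ i, (b ((2 : ℝ) • f2 i)) i = 2 * ∑ i, (b (f2 i)) i := by
        rw [Finset.mul_sum]
        apply Finset.sum_congr rfl
        intro i _
        rw [map_smul, PiLp.smul_apply, smul_eq_mul]
      linarith
    have h12 : ∑ i, (b (f i)) i = ∑ i, (b (f1 i)) i + ∑ i, (b (f2 i)) i := by
      rw [← Finset.sum_add_distrib]
      apply Finset.sum_congr rfl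
      intro i _
      rw [← PiLp.add_apply, ← map_add, ← hsum]
    rw [h12]
    linarith
  have hA1 : A ≤ ‖b‖ * Real.sqrt (Fintype.card ι) + A / 2 := by
    apply csSup_le (by exact ⟨0, fun _ => 0, by simp, by simp⟩)
    rintro r ⟨f, hf, rfl⟩
    exact key f hf
  have := key f hf
  linarith

/-- If the Euclidean space factors through `C(K)`, then the product of the norms is large. -/
theorem factor [Nonempty ι] (a : EuclideanSpace ℝ ι →L[ℝ] C(K, ℝ))
    (b : C(K, ℝ) →L[ℝ] EuclideanSpace ℝ ι) (hab : ∀ e, b (a e) = e) :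
    Real.sqrt (Fintype.card ι) ≤ 2 * (‖a‖ * ‖b‖) := by
  have ha : 0 < ‖a‖ := by
    refine lt_of_le_of_ne (ContinuousLinearMap.opNorm_nonneg _) ?_
    intro h00
    have h0 : a = 0 := by
      ext x t
      have h01 := a.le_opNorm x
      rw [← h00, zero_mul] at h01
      have h02 : a x = 0 := norm_le_zero_iff.mp h01
      rw [h02]
      rfl
    obtain ⟨i⟩ := (inferInstance : Nonempty ι)
    have h1 := hab (EuclideanSpace.single i 1)
    rw [h0] at h1
    have h2 : ‖(EuclideanSpace.single i (1 : ℝ) : EuclideanSpace ℝ ι)‖ = 0 := by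
      rw [← h1]; simp
    rw [EuclideanSpace.norm_single] at h2
    simp at h2
  let f : ι → C(K, ℝ) := fun i => ‖a‖⁻¹ • a (EuclideanSpace.single i 1)
  have hf : ∀ t, ∑ i, (f i t) ^ 2 ≤ 1 := by
    intro t
    set v : EuclideanSpace ℝ ι := WithLp.toLp 2 (fun i => a (EuclideanSpace.single i 1) t) with hv
    have h1 : a v t = ‖v‖ ^ 2 := by
      have e1 : v = ∑ i, (v i) • EuclideanSpace.single i (1 : ℝ) := by
        ext j
        simp [Pi.single_apply]
      have e2 : a v = ∑ i, (v i) • a (EuclideanSpace.single i (1 : ℝ)) := by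
        conv_lhs => rw [e1]
        rw [map_sum]
        simp only [map_smul]
      rw [e2, EuclideanSpace.norm_eq, Real.sq_sqrt (Finset.sum_nonneg (fun i _ => sq_nonneg _))]
      simp only [ContinuousMap.coe_sum, Finset.sum_apply, ContinuousMap.coe_smul, Pi.smul_apply,
        smul_eq_mul, Real.norm_eq_abs, sq_abs]
      apply Finset.sum_congr rfl
      intro i _
      have : v i = a (EuclideanSpace.single i 1) t := rfl
      rw [← this]
      ring
    have h2 : a v t ≤ ‖a‖ * ‖v‖ :=
      (le_abs_self _).trans (((a v).norm_coe_le_norm t).trans (a.le_opNorm v))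
    have h3 : ‖v‖ ≤ ‖a‖ := by
      by_contra hcon
      push Not at hcon
      have : 0 < ‖v‖ := ha.trans hcon
      nlinarith
    have h4 : ∑ i, (f i t) ^ 2 = (‖a‖⁻¹) ^ 2 * ‖v‖ ^ 2 := by
      rw [EuclideanSpace.norm_eq, Real.sq_sqrt (Finset.sum_nonneg (fun i _ => sq_nonneg _)),
        Finset.mul_sum]
      apply Finset.sum_congr rfl
      intro i _
      have : v i = a (EuclideanSpace.single i 1) t := rfl
      rw [this, Real.norm_eq_abs, sq_abs, ContinuousMap.smul_apply, smul_eq_mul]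
      ring
    rw [h4]
    have h5 : (‖a‖⁻¹) ^ 2 * ‖v‖ ^ 2 = (‖a‖⁻¹ * ‖v‖) ^ 2 := by ring
    rw [h5]
    apply pow_le_one₀ (by positivity)
    rw [inv_mul_le_iff₀ ha, mul_one]
    exact h3
  have h1 := lgt b f hf
  have h2 : ∑ i, (b (f i)) i = ‖a‖⁻¹ * Fintype.card ι := by
    have : ∀ i, (b (f i)) i = ‖a‖⁻¹ := by
      intro i
      simp only [f, map_smul, hab]
      simp
    simp only [this]
    rw [Finset.sum_const, Finset.card_univ, nsmul_eq_mul]
    ring
  rw [h2] at h1
  set n : ℝ := Real.sqrt (Fintype.card ι) with hn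
  have hn2 : (Fintype.card ι : ℝ) = n * n := (Real.mul_self_sqrt (Nat.cast_nonneg _)).symm
  have hn0 : 0 < n := Real.sqrt_pos.mpr (by exact_mod_cast Fintype.card_pos)
  rw [hn2, inv_mul_le_iff₀ ha] at h1
  have h3 : n * n ≤ n * (2 * (‖a‖ * ‖b‖)) := by
    calc n * n ≤ _ := h1
      _ = _ := by ring
  exact le_of_mul_le_mul_left h3 hn0

end

universe u

/-- On an infinite compact Hausdorff space, the space of continuous functions is infinite
dimensional. -/
theorem not_finiteDimensional (K : Type u) [TopologicalSpace K] [CompactSpace K] [T2Space K]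
    [Infinite K] : ¬ FiniteDimensional ℝ C(K, ℝ) := by
  classical
  intro hfin
  obtain ⟨s, hs⟩ := Infinite.exists_subset_card_eq K (Module.finrank ℝ C(K, ℝ) + 1)
  have h1 : ∀ t : s, ∃ f : C(K, ℝ), f t = 1 ∧ ∀ t' : s, t' ≠ t → f t' = 0 := by
    intro t
    have hc1 : IsClosed ((s.erase (t : K) : Finset K) : Set K) := (s.erase (t : K)).finite_toSet.isClosed
    have hc2 : IsClosed ({(t : K)} : Set K) := isClosed_singleton
    have hd : Disjoint ((s.erase (t : K) : Finset K) : Set K) {(t : K)} := by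
      rw [Set.disjoint_singleton_right]
      simp
    obtain ⟨f, hf0, hf1, -⟩ := exists_continuous_zero_one_of_isClosed hc1 hc2 hd
    refine ⟨f, ?_, ?_⟩
    · have := hf1 (Set.mem_singleton (t : K))
      simpa using this
    · intro t' ht'
      have h2 : (t' : K) ∈ ((s.erase (t : K) : Finset K) : Set K) := by
        rw [Finset.mem_coe, Finset.mem_erase]
        exact ⟨fun h => ht' (Subtype.ext h), t'.2⟩
      have := hf0 h2
      simpa using this
  choose F hF1 hF2 using h1
  have hli : LinearIndependent ℝ F := by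
    rw [Fintype.linearIndependent_iff]
    intro c hc t
    have h3 := congrArg (fun g : C(K, ℝ) => g (t : K)) hc
    simp only [ContinuousMap.coe_sum, Finset.sum_apply, ContinuousMap.coe_smul, Pi.smul_apply,
      smul_eq_mul, ContinuousMap.zero_apply] at h3
    rw [Finset.sum_eq_single t] at h3
    · rwa [hF1, mul_one] at h3
    · intro t' _ ht'
      rw [hF2 t' t (Ne.symm ht'), mul_zero]
    · intro h; exact absurd (Finset.mem_univ t) h
  have h4 := hli.fintype_card_le_finrank
  rw [Fintype.card_coe, hs] at h4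
  omega

theorem far (K : Type u) [TopologicalSpace K] [CompactSpace K] [T2Space K] [Infinite K] :
    Pool.Agent.Helper358.BP.Far ℝ C(K, ℝ) := by
  apply Pool.Agent.Helper358.BP.far_of_fin (not_finiteDimensional K)
  intro C
  obtain ⟨n, hn⟩ := exists_nat_gt (4 * C ^ 2)
  refine ⟨EuclideanSpace ℝ (ULift.{u} (Fin (n + 1))), inferInstance, inferInstance, inferInstance,
    fun a b hab => ?_⟩
  have h := factor a b hab
  rw [Fintype.card_ulift, Fintype.card_fin] at h
  by_contra hcon
  push Not at hcon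
  have h1 : Real.sqrt ((n + 1 : ℕ) : ℝ) ≤ 2 * C := by linarith
  have hC : 0 ≤ C := by
    have : 0 ≤ ‖a‖ * ‖b‖ := by positivity
    linarith
  rw [Real.sqrt_le_left (by linarith)] at h1
  push_cast at h1
  nlinarith

end Pool.Agent.H739R2.CK
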