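import Mathlib

set_option autoImplicit false
open scoped ENNReal Topology Pointwise
open Filter

namespace Pool.Agent.H739R2.PNIndex

/-- The set of values over which the infimum defining the polynomial numerical index is taken. -/
def IdxSet (Y : Type) [NormedAddCommGroup Y] [NormedSpace ℂ Y] (k : ℕ) : Set ℝ :=
  {r : ℝ | ∃ A : ContinuousMultilinearMap ℂ (fun _ : Fin k => Y) Y,
            sSup {s : ℝ | ∃ x : Y, ‖x‖ ≤ 1 ∧ s = ‖A (fun _ => x)‖} = 1 ∧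
            r = sSup {s : ℝ | ∃ (x : Y) (φ : Y →L[ℂ] ℂ), ‖x‖ = 1 ∧ ‖φ‖ = 1 ∧ φ x = 1 ∧
                  s = ‖φ (A (fun _ => x))‖}}

section basic

variable {Y : Type} [NormedAddCommGroup Y] [NormedSpace ℂ Y] {k : ℕ}

lemma bdd1 (A : ContinuousMultilinearMap ℂ (fun _ : Fin k => Y) Y) :
    BddAbove {s : ℝ | ∃ x : Y, ‖x‖ ≤ 1 ∧ s = ‖A (fun _ => x)‖} := by
  refine ⟨‖A‖, ?_⟩
  rintro s ⟨x, hx, rfl⟩
  refine (A.le_opNorm _).trans ?_
  have : ∏ _i : Fin k, ‖x‖ ≤ 1 := Finset.prod_le_one (fun i _ => norm_nonneg _) (fun i _ => hx)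
  calc ‖A‖ * ∏ _i : Fin k, ‖x‖ ≤ ‖A‖ * 1 := by gcongr
    _ = ‖A‖ := mul_one _

lemma bdd2 (A : ContinuousMultilinearMap ℂ (fun _ : Fin k => Y) Y) :
    BddAbove {s : ℝ | ∃ (x : Y) (φ : Y →L[ℂ] ℂ), ‖x‖ = 1 ∧ ‖φ‖ = 1 ∧ φ x = 1 ∧
                  s = ‖φ (A (fun _ => x))‖} := by
  obtain ⟨M, hM⟩ := bdd1 A
  refine ⟨M, ?_⟩
  rintro s ⟨x, φ, hx, hφ, -, rfl⟩
  refine (φ.le_opNorm _).trans ?_
  rw [hφ, one_mul]
  exact hM ⟨x, hx.le, rfl⟩

lemma nonneg2 (A : ContinuousMultilinearMap ℂ (fun _ : Fin k => Y) Y) :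
    0 ≤ sSup {s : ℝ | ∃ (x : Y) (φ : Y →L[ℂ] ℂ), ‖x‖ = 1 ∧ ‖φ‖ = 1 ∧ φ x = 1 ∧
                  s = ‖φ (A (fun _ => x))‖} := by
  apply Real.sSup_nonneg
  rintro s ⟨x, φ, -, -, -, rfl⟩
  exact norm_nonneg _

lemma nonneg1 (A : ContinuousMultilinearMap ℂ (fun _ : Fin k => Y) Y) :
    0 ≤ sSup {s : ℝ | ∃ x : Y, ‖x‖ ≤ 1 ∧ s = ‖A (fun _ => x)‖} := by
  apply Real.sSup_nonneg
  rintro s ⟨x, -, rfl⟩
  exact norm_nonneg _

lemma idx_nonneg {r : ℝ} (hr : r ∈ IdxSet Y k) : 0 ≤ r := by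
  obtain ⟨A, -, rfl⟩ := hr
  exact nonneg2 A

lemma bddBelow : BddBelow (IdxSet Y k) := ⟨0, fun _ hr => idx_nonneg hr⟩

lemma le_one1 (A : ContinuousMultilinearMap ℂ (fun _ : Fin k => Y) Y)
    (hA : sSup {s : ℝ | ∃ x : Y, ‖x‖ ≤ 1 ∧ s = ‖A (fun _ => x)‖} = 1) (x : Y) (hx : ‖x‖ ≤ 1) :
    ‖A (fun _ => x)‖ ≤ 1 := by
  rw [← hA]
  exact le_csSup (bdd1 A) ⟨x, hx, rfl⟩

/-- Scaling a nonzero polynomial to norm one. -/
lemma scale (A : ContinuousMultilinearMap ℂ (fun _ : Fin k => Y) Y) (β : ℝ) (hβ : 0 < β)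
    (hA : sSup {s : ℝ | ∃ x : Y, ‖x‖ ≤ 1 ∧ s = ‖A (fun _ => x)‖} = β) :
    β⁻¹ * sSup {s : ℝ | ∃ (x : Y) (φ : Y →L[ℂ] ℂ), ‖x‖ = 1 ∧ ‖φ‖ = 1 ∧ φ x = 1 ∧
                  s = ‖φ (A (fun _ => x))‖} ∈ IdxSet Y k := by
  have hn : ‖((β⁻¹ : ℝ) : ℂ)‖ = β⁻¹ := by
    rw [Complex.norm_real, Real.norm_eq_abs, abs_of_pos (by positivity)]
  refine ⟨((β⁻¹ : ℝ) : ℂ) • A, ?_, ?_⟩
  · have : {s : ℝ | ∃ x : Y, ‖x‖ ≤ 1 ∧ s = ‖(((β⁻¹ : ℝ) : ℂ) • A) (fun _ => x)‖} =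
        β⁻¹ • {s : ℝ | ∃ x : Y, ‖x‖ ≤ 1 ∧ s = ‖A (fun _ => x)‖} := by
      ext s
      rw [Set.mem_smul_set]
      constructor
      · rintro ⟨x, hx, rfl⟩
        refine ⟨_, ⟨x, hx, rfl⟩, ?_⟩
        rw [_root_.smul_apply, norm_smul, hn, smul_eq_mul]
      · rintro ⟨_, ⟨x, hx, rfl⟩, rfl⟩
        refine ⟨x, hx, ?_⟩
        rw [_root_.smul_apply, norm_smul, hn, smul_eq_mul]
    rw [this, Real.sSup_smul_of_nonneg (by positivity), hA, smul_eq_mul, inv_mul_cancel₀ hβ.ne']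
  · have : {s : ℝ | ∃ (x : Y) (φ : Y →L[ℂ] ℂ), ‖x‖ = 1 ∧ ‖φ‖ = 1 ∧ φ x = 1 ∧
                  s = ‖φ ((((β⁻¹ : ℝ) : ℂ) • A) (fun _ => x))‖} =
        β⁻¹ • {s : ℝ | ∃ (x : Y) (φ : Y →L[ℂ] ℂ), ‖x‖ = 1 ∧ ‖φ‖ = 1 ∧ φ x = 1 ∧
                  s = ‖φ (A (fun _ => x))‖} := by
      ext s
      rw [Set.mem_smul_set]
      constructor
      · rintro ⟨x, φ, h1, h2, h3, rfl⟩
        refine ⟨_, ⟨x, φ, h1, h2, h3, rfl⟩, ?_⟩
        rw [_root_.smul_apply, map_smul, norm_smul, hn, smul_eq_mul]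
      · rintro ⟨_, ⟨x, φ, h1, h2, h3, rfl⟩, rfl⟩
        refine ⟨x, φ, h1, h2, h3, ?_⟩
        rw [_root_.smul_apply, map_smul, norm_smul, hn, smul_eq_mul]
    rw [this, Real.sSup_smul_of_nonneg (by positivity), smul_eq_mul]

/-- The set of values is nonempty on nontrivial spaces. -/
lemma idx_nonempty [Nontrivial Y] : (IdxSet Y k).Nonempty := by
  obtain ⟨u, hu⟩ := exists_norm_eq Y (zero_le_one (α := ℝ))
  have hu0 : u ≠ 0 := by
    intro h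
    rw [h, norm_zero] at hu
    exact zero_ne_one hu
  obtain ⟨g, hg, hgu⟩ := exists_dual_vector ℂ u (norm_ne_zero_iff.mpr hu0)
  have hgu1 : g u = 1 := by rw [hgu, hu]; simp
  let B : ContinuousMultilinearMap ℂ (fun _ : Fin k => Y) ℂ :=
    (ContinuousMultilinearMap.mkPiAlgebraFin ℂ k ℂ).compContinuousLinearMap (fun _ => g)
  let A : ContinuousMultilinearMap ℂ (fun _ : Fin k => Y) Y :=
    (ContinuousLinearMap.toSpanSingleton ℂ u).compContinuousMultilinearMap B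
  have hA : ∀ x : Y, A (fun _ => x) = (g x) ^ k • u := by
    intro x
    simp [A, B, List.ofFn_const]
  have h1 : sSup {s : ℝ | ∃ x : Y, ‖x‖ ≤ 1 ∧ s = ‖A (fun _ => x)‖} = 1 := by
    apply le_antisymm
    · apply csSup_le (by exact ⟨_, u, hu.le, rfl⟩)
      rintro s ⟨x, hx, rfl⟩
      rw [hA, norm_smul, hu, mul_one, norm_pow]
      apply pow_le_one₀ (norm_nonneg _)
      calc ‖g x‖ ≤ ‖g‖ * ‖x‖ := g.le_opNorm x
        _ ≤ 1 := by rw [hg, one_mul]; exact hx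
    · apply le_csSup (bdd1 A)
      refine ⟨u, hu.le, ?_⟩
      rw [hA, hgu1, one_pow, one_smul, hu]
  exact ⟨_, A, h1, rfl⟩

end basic

/-- A nontrivial family of norm one projections with the `ℓ_∞`-sum property. -/
structure SupData (Λ : Type) (X : Λ → Type) [∀ i, NormedAddCommGroup (X i)]
    [∀ i, NormedSpace ℂ (X i)] (Z : Type) [NormedAddCommGroup Z] [NormedSpace ℂ Z] where
  inc : ∀ i, X i →L[ℂ] Z
  pr : ∀ i, Z →L[ℂ] X i
  pr_inc : ∀ i x, pr i (inc i x) = x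
  pr_le : ∀ i z, ‖pr i z‖ ≤ ‖z‖
  exists_lt : ∀ z : Z, ∀ c : ℝ, c < ‖z‖ → ∃ i, c < ‖pr i z‖
  norm_le : ∀ i (x : X i) (z : Z), ‖inc i x + (z - inc i (pr i z))‖ ≤ max ‖x‖ ‖z‖

variable {Λ : Type} {X : Λ → Type} [∀ i, NormedAddCommGroup (X i)]
    [∀ i, NormedSpace ℂ (X i)] {Z : Type} [NormedAddCommGroup Z] [NormedSpace ℂ Z]

lemma SupData.inc_norm (D : SupData Λ X Z) (i : Λ) (x : X i) : ‖D.inc i x‖ = ‖x‖ := by
  apply le_antisymm
  · have := D.norm_le i x 0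
    simpa using this
  · have := D.pr_le i (D.inc i x)
    rwa [D.pr_inc] at this

lemma SupData.rest_norm (D : SupData Λ X Z) (i : Λ) (z : Z) :
    ‖z - D.inc i (D.pr i z)‖ ≤ ‖z‖ := by
  have := D.norm_le i 0 z
  simpa using this

lemma SupData.norm_le' (D : SupData Λ X Z) (i : Λ) (x : X i) (y : Z) (hy : D.pr i y = 0) :
    ‖D.inc i x + y‖ ≤ max ‖x‖ ‖y‖ := by
  have := D.norm_le i x y
  rwa [hy, map_zero, sub_zero] at this

/-- If `φ` attains its norm one at the norm one vector `x`, then so does its `i`-th component. -/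
lemma SupData.component (D : SupData Λ X Z) (i : Λ) (x : Z) (φ : Z →L[ℂ] ℂ) (hx : ‖x‖ = 1)
    (hφ : ‖φ‖ = 1) (hφx : φ x = 1) :
    (φ.comp (D.inc i)) (D.pr i x) = ‖φ.comp (D.inc i)‖ := by
  set ψ := φ.comp (D.inc i) with hψ
  set y := x - D.inc i (D.pr i x) with hy
  have h1 : ψ (D.pr i x) + φ y = 1 := by
    rw [hψ, hy, map_sub, ContinuousLinearMap.comp_apply]
    rw [add_sub_cancel, hφx]
  have h2 : ‖ψ‖ ≤ 1 - ‖φ y‖ := by
    have hnn : 0 ≤ 1 - ‖φ y‖ := by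
      have : ‖φ y‖ ≤ ‖φ‖ * ‖y‖ := φ.le_opNorm y
      have h4 := D.rest_norm i x
      rw [hφ, one_mul] at this
      rw [← hy, hx] at h4
      linarith
    apply ContinuousLinearMap.opNorm_le_of_unit_norm hnn
    intro z hz
    -- rotate z
    obtain ⟨c, hc, hcz⟩ : ∃ c : ℂ, ‖c‖ = 1 ∧ ‖ψ (c • z) + φ y‖ = ‖ψ z‖ + ‖φ y‖ := by
      by_cases h0 : ψ z = 0
      · exact ⟨1, norm_one, by rw [one_smul, h0]; simp⟩
      by_cases h0' : φ y = 0
      · exact ⟨1, norm_one, by rw [one_smul, h0']; simp⟩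
      have hz0 : (‖ψ z‖ : ℂ) ≠ 0 := by
        exact_mod_cast norm_ne_zero_iff.mpr h0
      have hy0 : (‖φ y‖ : ℂ) ≠ 0 := by
        exact_mod_cast norm_ne_zero_iff.mpr h0'
      refine ⟨(φ y / ‖φ y‖) * (ψ z / ‖ψ z‖)⁻¹, ?_, ?_⟩
      · rw [norm_mul, norm_inv, norm_div, norm_div, Complex.norm_real, Complex.norm_real,
          norm_norm, norm_norm, div_self (norm_ne_zero_iff.mpr h0),
          div_self (norm_ne_zero_iff.mpr h0')]
        simp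
      · rw [map_smul, smul_eq_mul]
        have e1 : φ y / ‖φ y‖ * (ψ z / ‖ψ z‖)⁻¹ * ψ z + φ y =
            (φ y / ‖φ y‖) * ((‖ψ z‖ + ‖φ y‖ : ℝ) : ℂ) := by
          push_cast
          field_simp
        rw [e1, norm_mul, norm_div, Complex.norm_real, Complex.norm_real, norm_norm,
          div_self (norm_ne_zero_iff.mpr h0'), one_mul, Real.norm_eq_abs,
          abs_of_nonneg (by positivity)]
    have h5 : ‖ψ (c • z) + φ y‖ ≤ 1 := by
      have e : ψ (c • z) + φ y = φ (D.inc i (c • z) + y) := by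
        rw [map_add, hψ, ContinuousLinearMap.comp_apply]
      rw [e]
      refine (φ.le_opNorm _).trans ?_
      rw [hφ, one_mul]
      have := D.norm_le i (c • z) x
      rw [← hy, hx, norm_smul, hc, hz] at this
      simpa using this
    rw [hcz] at h5
    linarith
  have h3 : ‖ψ (D.pr i x)‖ ≤ ‖ψ‖ := by
    refine (ψ.le_opNorm _).trans ?_
    have := D.pr_le i x
    rw [hx] at this
    calc ‖ψ‖ * ‖D.pr i x‖ ≤ ‖ψ‖ * 1 := by gcongr
      _ = ‖ψ‖ := mul_one _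
  have h4 : ‖ψ‖ ≤ (ψ (D.pr i x)).re := by
    have e1 : (ψ (D.pr i x)).re = 1 - (φ y).re := by
      have := congrArg Complex.re h1
      rw [Complex.add_re, Complex.one_re] at this
      linarith
    have e2 : (φ y).re ≤ ‖φ y‖ := Complex.re_le_norm _
    linarith
  have h5 : (ψ (D.pr i x)).re = ‖ψ (D.pr i x)‖ :=
    le_antisymm (Complex.re_le_norm _) (h3.trans h4)
  have h6 : (ψ (D.pr i x)).re = ‖ψ‖ := le_antisymm ((Complex.re_le_norm _).trans h3) h4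
  have h7 : (ψ (D.pr i x)).im = 0 := by
    have h8 := Complex.sq_norm (ψ (D.pr i x))
    rw [← h5, Complex.normSq_apply] at h8
    nlinarith
  apply Complex.ext
  · rw [h6, Complex.ofReal_re]
  · rw [h7, Complex.ofReal_im]

/-- The upper estimate. -/
lemma SupData.idx_le (D : SupData Λ X Z) (i : Λ) (k : ℕ) (r : ℝ)
    (hr : r ∈ IdxSet (X i) k) : ∃ r' ∈ IdxSet Z k, r' ≤ r := by
  obtain ⟨B, hB1, rfl⟩ := hr
  let A : ContinuousMultilinearMap ℂ (fun _ : Fin k => Z) Z :=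
    (D.inc i).compContinuousMultilinearMap (B.compContinuousLinearMap (fun _ => D.pr i))
  have hA : ∀ z : Z, A (fun _ => z) = D.inc i (B (fun _ => D.pr i z)) := fun z => rfl
  refine ⟨_, ⟨A, ?_, rfl⟩, ?_⟩
  · refine Eq.trans ?_ hB1
    congr 1
    ext s
    constructor
    · rintro ⟨z, hz, rfl⟩
      refine ⟨D.pr i z, (D.pr_le i z).trans hz, ?_⟩
      rw [hA, D.inc_norm]
    · rintro ⟨x, hx, rfl⟩
      refine ⟨D.inc i x, by rwa [D.inc_norm], ?_⟩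
      rw [hA, D.inc_norm, D.pr_inc]
  · apply Real.sSup_le _ (nonneg2 B)
    rintro s ⟨x, φ, hx, hφ, hφx, rfl⟩
    have hc := D.component i x φ hx hφ hφx
    set ψ := φ.comp (D.inc i) with hψ
    have e1 : φ (A (fun _ => x)) = ψ (B (fun _ => D.pr i x)) := by rw [hA]; rfl
    rw [e1]
    by_cases h0 : ψ = 0
    · rw [h0]
      simpa using nonneg2 B
    have hψ0 : 0 < ‖ψ‖ := norm_pos_iff.mpr h0
    have hψ1 : ‖ψ‖ ≤ 1 := by
      apply ContinuousLinearMap.opNorm_le_bound _ zero_le_one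
      intro z
      rw [hψ, ContinuousLinearMap.comp_apply]
      refine (φ.le_opNorm _).trans ?_
      rw [hφ, D.inc_norm]
    have hx1 : ‖D.pr i x‖ = 1 := by
      apply le_antisymm
      · rw [← hx]; exact D.pr_le i x
      · have h3 : ‖ψ (D.pr i x)‖ ≤ ‖ψ‖ * ‖D.pr i x‖ := ψ.le_opNorm _
        rw [hc, Complex.norm_real, norm_norm] at h3
        by_contra hcon
        push Not at hcon
        have : ‖ψ‖ * ‖D.pr i x‖ < ‖ψ‖ * 1 := by gcongr
        linarith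
    let χ : X i →L[ℂ] ℂ := ((‖ψ‖⁻¹ : ℝ) : ℂ) • ψ
    have hn : ‖((‖ψ‖⁻¹ : ℝ) : ℂ)‖ = ‖ψ‖⁻¹ := by
      rw [Complex.norm_real, Real.norm_eq_abs, abs_of_pos (by positivity)]
    have hχ : ‖χ‖ = 1 := by
      rw [norm_smul, hn, inv_mul_cancel₀ hψ0.ne']
    have hχx : χ (D.pr i x) = 1 := by
      rw [_root_.smul_apply, hc, smul_eq_mul, ← Complex.ofReal_mul,
        inv_mul_cancel₀ hψ0.ne', Complex.ofReal_one]
    have h4 : ‖χ (B (fun _ => D.pr i x))‖ ≤ sSup {s : ℝ | ∃ (x : X i) (φ : X i →L[ℂ] ℂ),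
        ‖x‖ = 1 ∧ ‖φ‖ = 1 ∧ φ x = 1 ∧ s = ‖φ (B (fun _ => x))‖} :=
      le_csSup (bdd2 B) ⟨D.pr i x, χ, hx1, hχ, hχx, rfl⟩
    rw [_root_.smul_apply, norm_smul, hn] at h4
    calc ‖ψ (B fun _ => D.pr i x)‖ = ‖ψ‖ * (‖ψ‖⁻¹ * ‖ψ (B fun _ => D.pr i x)‖) := by
          rw [← mul_assoc, mul_inv_cancel₀ hψ0.ne', one_mul]
      _ ≤ 1 * (‖ψ‖⁻¹ * ‖ψ (B fun _ => D.pr i x)‖) := by gcongr
      _ ≤ _ := by rw [one_mul]; exact h4

/-- The maximum modulus principle used in the lower estimate. -/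
lemma max_mod {k : ℕ} (A : ContinuousMultilinearMap ℂ (fun _ : Fin k => Z) Z)
    (f : Z →L[ℂ] ℂ) (u y : Z) (t : ℝ) (ht0 : 0 ≤ t) (ht1 : t ≤ 1) (c : ℝ)
    (hc : c < ‖f (A (fun _ => (t : ℂ) • u + y))‖) :
    ∃ ζ : ℂ, ‖ζ‖ = 1 ∧ c < ‖f (A (fun _ => ζ • u + y))‖ := by
  by_contra hcon
  push Not at hcon
  let F : ℂ → ℂ := fun ζ => f (A (fun _ => ζ • u + y))
  have hF : Differentiable ℂ F := by
    have h1 : Differentiable ℂ (fun ζ : ℂ => (fun _ : Fin k => ζ • u + y)) := by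
      rw [differentiable_pi]
      intro i
      fun_prop
    exact f.differentiable.comp (A.contDiff.differentiable (by simp : (1 : WithTop ℕ∞) ≠ 0) |>.comp h1)
  have h2 : ‖F (t : ℂ)‖ ≤ c := by
    apply Complex.norm_le_of_forall_mem_frontier_norm_le (U := Metric.ball (0 : ℂ) 1)
      Metric.isBounded_ball hF.diffContOnCl
    · intro z hz
      rw [frontier_ball _ one_ne_zero, mem_sphere_zero_iff_norm] at hz
      exact hcon z hz
    · rw [closure_ball _ one_ne_zero, mem_closedBall_zero_iff, Complex.norm_real,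
        Real.norm_eq_abs, abs_of_nonneg ht0]
      exact ht1
  exact absurd h2 (not_le.mpr hc)

/-- The lower estimate. -/
lemma SupData.le_idx [∀ i, Nontrivial (X i)] (D : SupData Λ X Z) (k : ℕ) (r : ℝ)
    (hr : r ∈ IdxSet Z k) (ε : ℝ) (hε : 0 < ε) (hε1 : ε < 1) :
    ∃ i, ∃ r' ∈ IdxSet (X i) k, r' ≤ (1 - ε)⁻¹ * r := by
  obtain ⟨A, hA1, rfl⟩ := hr
  obtain ⟨s, ⟨x, hx, rfl⟩, hs⟩ := exists_lt_of_lt_csSup
    (s := {s : ℝ | ∃ x : Z, ‖x‖ ≤ 1 ∧ s = ‖A (fun _ => x)‖})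
    (by exact ⟨_, 0, by simp, rfl⟩) (b := 1 - ε) (by rw [hA1]; linarith)
  obtain ⟨i, hi⟩ := D.exists_lt _ _ hs
  refine ⟨i, ?_⟩
  have hne : D.pr i (A (fun _ => x)) ≠ 0 := by
    intro h
    rw [h, norm_zero] at hi
    linarith
  obtain ⟨φ, hφ, hφx⟩ := exists_dual_vector ℂ _ (norm_ne_zero_iff.mpr hne)
  obtain ⟨u, hu, hux⟩ : ∃ u : X i, ‖u‖ = 1 ∧ D.pr i x = ((‖D.pr i x‖ : ℝ) : ℂ) • u := by
    by_cases h0 : D.pr i x = 0
    · obtain ⟨u, hu⟩ := exists_norm_eq (X i) (zero_le_one (α := ℝ))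
      exact ⟨u, hu, by rw [h0]; simp⟩
    · have hpos : 0 < ‖D.pr i x‖ := norm_pos_iff.mpr h0
      refine ⟨((‖D.pr i x‖⁻¹ : ℝ) : ℂ) • D.pr i x, ?_, ?_⟩
      · rw [norm_smul, Complex.norm_real, norm_inv, norm_norm, inv_mul_cancel₀ hpos.ne']
      · rw [smul_smul, ← Complex.ofReal_mul, mul_inv_cancel₀ hpos.ne', Complex.ofReal_one, one_smul]
  set y := x - D.inc i (D.pr i x) with hy
  have hyn : ‖y‖ ≤ 1 := (D.rest_norm i x).trans hx
  have hy0 : D.pr i y = 0 := by rw [hy, map_sub, D.pr_inc, sub_self]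
  have ht1 : ‖D.pr i x‖ ≤ 1 := (D.pr_le i x).trans hx
  obtain ⟨ζ, hζ, hζc⟩ := max_mod A (φ.comp (D.pr i)) (D.inc i u) y ‖D.pr i x‖ (norm_nonneg _) ht1
    (1 - ε) (by
      have e1 : ((‖D.pr i x‖ : ℝ) : ℂ) • D.inc i u + y = x := by
        rw [← map_smul, ← hux, hy, add_sub_cancel]
      rw [e1, ContinuousLinearMap.comp_apply, hφx]
      simpa using hi)
  set u' := ζ • u with hu'
  have hu'n : ‖u'‖ = 1 := by rw [hu', norm_smul, hζ, hu, one_mul]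
  have hu'0 : u' ≠ 0 := by
    intro h
    rw [h, norm_zero] at hu'n
    exact zero_ne_one hu'n
  obtain ⟨g, hg, hgu⟩ := exists_dual_vector ℂ u' (norm_ne_zero_iff.mpr hu'0)
  have hgu1 : g u' = 1 := by rw [hgu, hu'n]; simp
  let L : X i →L[ℂ] Z := D.inc i + (ContinuousLinearMap.toSpanSingleton ℂ y).comp g
  have hL : ∀ z, L z = D.inc i z + g z • y := fun z => rfl
  have hprL : ∀ z, D.pr i (L z) = z := by
    intro z
    rw [hL, map_add, map_smul, hy0, smul_zero, add_zero, D.pr_inc]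
  have hLn : ∀ z, ‖L z‖ = ‖z‖ := by
    intro z
    apply le_antisymm
    · rw [hL]
      refine (D.norm_le' i z (g z • y) (by rw [map_smul, hy0, smul_zero])).trans ?_
      apply max_le le_rfl
      rw [norm_smul]
      have h1 : ‖g z‖ ≤ ‖g‖ * ‖z‖ := g.le_opNorm z
      rw [hg, one_mul] at h1
      calc ‖g z‖ * ‖y‖ ≤ ‖z‖ * 1 := by gcongr
        _ = ‖z‖ := mul_one _
    · have := D.pr_le i (L z)
      rwa [hprL] at this
  let B : ContinuousMultilinearMap ℂ (fun _ : Fin k => X i) (X i) :=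
    (D.pr i).compContinuousMultilinearMap (A.compContinuousLinearMap (fun _ => L))
  have hB : ∀ z, B (fun _ => z) = D.pr i (A (fun _ => L z)) := fun z => rfl
  set β := sSup {s : ℝ | ∃ z : X i, ‖z‖ ≤ 1 ∧ s = ‖B (fun _ => z)‖} with hβ
  have hβ1 : 1 - ε < β := by
    have h1 : ‖B (fun _ => u')‖ ≤ β := le_csSup (bdd1 B) ⟨u', hu'n.le, rfl⟩
    have h2 : L u' = ζ • D.inc i u + y := by
      rw [hL, hgu1, one_smul, hu', map_smul]
    have h3 : ‖(φ.comp (D.pr i)) (A fun _ => ζ • D.inc i u + y)‖ ≤ ‖B (fun _ => u')‖ := by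
      rw [hB, h2, ContinuousLinearMap.comp_apply]
      refine (φ.le_opNorm _).trans ?_
      rw [hφ, one_mul]
    linarith
  have hβ0 : 0 < β := by linarith
  refine ⟨_, scale B β hβ0 rfl, ?_⟩
  have hv : sSup {s : ℝ | ∃ (x : X i) (φ : X i →L[ℂ] ℂ), ‖x‖ = 1 ∧ ‖φ‖ = 1 ∧ φ x = 1 ∧
                  s = ‖φ (B (fun _ => x))‖} ≤
      sSup {s : ℝ | ∃ (x : Z) (φ : Z →L[ℂ] ℂ), ‖x‖ = 1 ∧ ‖φ‖ = 1 ∧ φ x = 1 ∧
                  s = ‖φ (A (fun _ => x))‖} := by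
    apply Real.sSup_le _ (nonneg2 A)
    rintro s ⟨z, ψ, hz, hψ, hψz, rfl⟩
    apply le_csSup (bdd2 A)
    refine ⟨L z, ψ.comp (D.pr i), by rw [hLn, hz], ?_, ?_, rfl⟩
    · apply le_antisymm
      · apply ContinuousLinearMap.opNorm_le_bound _ zero_le_one
        intro w
        rw [ContinuousLinearMap.comp_apply]
        refine (ψ.le_opNorm _).trans ?_
        rw [hψ]
        exact mul_le_mul_of_nonneg_left (D.pr_le i w) zero_le_one
      · have h1 := (ψ.comp (D.pr i)).le_opNorm (L z)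
        rw [ContinuousLinearMap.comp_apply, hprL, hψz, norm_one, hLn, hz, mul_one] at h1
        exact h1
    · rw [ContinuousLinearMap.comp_apply, hprL, hψz]
  have h1e : 0 < 1 - ε := by linarith
  calc β⁻¹ * _ ≤ β⁻¹ * _ := mul_le_mul_of_nonneg_left hv (by positivity)
    _ ≤ (1 - ε)⁻¹ * _ := by
      apply mul_le_mul_of_nonneg_right _ (nonneg2 A)
      exact inv_anti₀ h1e hβ1.le

theorem SupData.main [Nonempty Λ] [∀ i, Nontrivial (X i)] (D : SupData Λ X Z) (k : ℕ) :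
    sInf (IdxSet Z k) = ⨅ i, sInf (IdxSet (X i) k) := by
  have hZ : Nontrivial Z := by
    obtain ⟨i⟩ := (inferInstance : Nonempty Λ)
    obtain ⟨x, hx⟩ := exists_ne (0 : X i)
    refine ⟨D.inc i x, 0, ?_⟩
    intro h
    have := D.inc_norm i x
    rw [h, norm_zero] at this
    exact hx (norm_eq_zero.mp this.symm)
  have hbdd : BddBelow (Set.range fun i => sInf (IdxSet (X i) k)) := by
    refine ⟨0, ?_⟩
    rintro _ ⟨i, rfl⟩
    exact Real.sInf_nonneg (fun r hr => idx_nonneg hr)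
  apply le_antisymm
  · apply le_ciInf
    intro i
    apply le_csInf idx_nonempty
    intro r hr
    obtain ⟨r', hr', hle⟩ := D.idx_le i k r hr
    exact (csInf_le bddBelow hr').trans hle
  · apply le_csInf idx_nonempty
    intro r hr
    have hr0 := idx_nonneg hr
    set m := ⨅ i, sInf (IdxSet (X i) k) with hm
    have key : ∀ ε : ℝ, 0 < ε → ε < 1 → (1 - ε) * m ≤ r := by
      intro ε hε hε1
      obtain ⟨i, r', hr', hle⟩ := D.le_idx k r hr ε hε hε1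
      have h1 : m ≤ r' := (ciInf_le hbdd i).trans (csInf_le bddBelow hr')
      have h2 : m ≤ (1 - ε)⁻¹ * r := h1.trans hle
      have h3 : 0 < 1 - ε := by linarith
      calc (1 - ε) * m ≤ (1 - ε) * ((1 - ε)⁻¹ * r) := by gcongr
        _ = r := by rw [← mul_assoc, mul_inv_cancel₀ h3.ne', one_mul]
    have hm0 : 0 ≤ m := Real.iInf_nonneg (fun i => Real.sInf_nonneg (fun r hr => idx_nonneg hr))
    by_contra hcon
    push Not at hcon
    have hmpos : 0 < m := lt_of_le_of_lt hr0 hcon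
    have h4 := key ((1 - r / m) / 2) (by
      have : r / m < 1 := by rw [div_lt_one hmpos]; exact hcon
      linarith) (by
      have : 0 ≤ r / m := by positivity
      linarith)
    have h5 : (1 - (1 - r / m) / 2) * m = (m + r) / 2 := by
      field_simp
      ring
    rw [h5] at h4
    linarith

end Pool.Agent.H739R2.PNIndex
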